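import Pool.Agent.W5h38.SC.Fam
import Pool.Agent.R130.CF.Struct

/-!
# MP_f07b9f_nt : the type of the extremal sets changes infinitely often

`K` is a number field, `Theta K N₀` the nonzero integral ideals of norm at most `N₀`, `P2 K` the
set of prime ideals of norm `2`, `tr K θ` the set of members of `P2 K` dividing `θ`; `Extremal`,
`MaxIntersecting`, `Fam`, `E`, `TwoOf` are those of the starting result `Structure` (definitions:
`Pool/Agent/R130/CF/Ideals.lean` and `Pool/Agent/R130/CF/Three.lean`), which says that for all large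
`N₀` the extremal sets are the largest ones of the sets
`Fam K N₀ F = {θ ∈ Θ(N₀) : tr θ ∈ F}`, `F` a maximal intersecting family of subsets of `P2 K`. Here
we compare these sets.
-/

set_option autoImplicit false

open NumberField R130.CF.Ideals

namespace Pool.Agent.Results.MP_f07b9f_nt.SignChanges

/-- The number of the members of `F` with `j` elements. -/
noncomputable def profile {K : Type} [Field K] [NumberField K] (F : Set (Set (Ideal (𝓞 K))))
    (j : ℕ) : ℕ := {S ∈ F | S.ncard = j}.ncard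

open Pool.Agent.W5h38.SC

variable {K : Type} [Field K] [NumberField K]

theorem profile_eq (F : Set (Set (Ideal (𝓞 K)))) : profile F = prof F := rfl

/-- a family without singletons -/
theorem exists_no_single (h3 : 3 ≤ (P2 K).ncard) :
    ∃ F, MaxIntersecting K F ∧ ∀ η, {η} ∉ F := by
  obtain ⟨T, hT, hTc⟩ := Set.exists_subset_card_eq h3
  have hTf : T.Finite := P2_finite.subset hT
  have hc : ∀ S : Set (Ideal (𝓞 K)), (S ∩ T).ncard + ((P2 K \ S) ∩ T).ncard = 3 := by
    intro S
    rw [← hTc, ← Set.ncard_union_eq _ (hTf.subset Set.inter_subset_right)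
      (hTf.subset Set.inter_subset_right)]
    · congr 1
      ext x
      constructor
      · rintro (h | h)
        · exact h.2
        · exact h.2
      · intro h
        by_cases hx : x ∈ S
        · exact Or.inl ⟨hx, h⟩
        · exact Or.inr ⟨⟨hT h, hx⟩, h⟩
    · rw [Set.disjoint_left]
      rintro x ⟨h1, _⟩ ⟨⟨_, h2⟩, _⟩
      exact h2 h1
  refine ⟨{S | S ⊆ P2 K ∧ 2 ≤ (S ∩ T).ncard}, ⟨fun S hS => hS.1, fun S hS => ?_, ?_⟩, ?_⟩
  · have h1 := hc S
    constructor
    · rintro ⟨_, h2⟩ ⟨_, h4⟩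
      omega
    · intro h2
      refine ⟨hS, ?_⟩
      by_contra h4
      exact h2 ⟨Set.sdiff_subset, by omega⟩
  · rintro S ⟨_, h1⟩ S' ⟨_, h2⟩
    by_contra hemp
    rw [Set.not_nonempty_iff_eq_empty] at hemp
    have hd : Disjoint (S ∩ T) (S' ∩ T) := by
      rw [Set.disjoint_left]
      rintro x ⟨h3, _⟩ ⟨h4, _⟩
      have : x ∈ S ∩ S' := ⟨h3, h4⟩
      rw [hemp] at this
      exact this
    have h5 := Set.ncard_union_eq hd (hTf.subset Set.inter_subset_right)
      (hTf.subset Set.inter_subset_right)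
    have h6 := Set.ncard_le_ncard (Set.union_subset (Set.inter_subset_right (s := S) (t := T))
      (Set.inter_subset_right (s := S') (t := T))) hTf
    omega
  · rintro η ⟨_, h1⟩
    have h2 := Set.ncard_le_ncard (Set.inter_subset_left (s := {η}) (t := T))
      (Set.finite_singleton η)
    rw [Set.ncard_singleton] at h2
    omega

theorem prof_one_of_mem {F : Set (Set (Ideal (𝓞 K)))} (hF : MaxIntersecting K F)
    {η : Ideal (𝓞 K)} (hη : {η} ∈ F) : prof F 1 = 1 := by
  unfold prof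
  rw [Set.ncard_eq_one]
  refine ⟨{η}, ?_⟩
  ext S
  constructor
  · rintro ⟨h1, h2⟩
    obtain ⟨x, hx, hx'⟩ := hF.2.2 _ hη S h1
    rw [Set.mem_singleton_iff] at hx
    rw [hx] at hx'
    rw [Set.ncard_eq_one] at h2
    obtain ⟨y, rfl⟩ := h2
    rw [Set.mem_singleton_iff] at hx' ⊢
    rw [hx']
  · intro h
    rw [Set.mem_singleton_iff] at h
    rw [h]
    exact ⟨hη, Set.ncard_singleton _⟩

omit [NumberField K] in
theorem prof_one_of_not {F : Set (Set (Ideal (𝓞 K)))} (hF : ∀ η, {η} ∉ F) : prof F 1 = 0 := by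
  unfold prof
  have : {S ∈ F | S.ncard = 1} = ∅ := by
    rw [Set.eq_empty_iff_forall_notMem]
    rintro S ⟨h1, h2⟩
    rw [Set.ncard_eq_one] at h2
    obtain ⟨y, rfl⟩ := h2
    exact hF y h1
  rw [this, Set.ncard_empty]

/-- for at most four primes, the number of singletons determines the profile -/
theorem prof_ext {F F' : Set (Set (Ideal (𝓞 K)))} (hF : MaxIntersecting K F)
    (hF' : MaxIntersecting K F') (hr : (P2 K).ncard = 3 ∨ (P2 K).ncard = 4)
    (h : prof F 1 = prof F' 1) : prof F = prof F' := by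
  have hc := card_PF (K := K)
  have key : ∀ G : Set (Set (Ideal (𝓞 K))), MaxIntersecting K G →
      ((P2 K).ncard = 3 → prof G 0 = 0 ∧ prof G 1 + prof G 2 = 3 ∧ prof G 3 = 1) ∧
      ((P2 K).ncard = 4 → prof G 0 = 0 ∧ prof G 1 + prof G 3 = 4 ∧ prof G 2 = 3 ∧
        prof G 4 = 1) := by
    intro G hG
    refine ⟨fun h3 => ?_, fun h4 => ?_⟩
    · rw [h3] at hc
      have e1 := prof_compl hG (j := 1) (by omega)
      have e2 := prof_top hG
      rw [hc] at e1 e2
      exact ⟨prof_zero hG, e1, e2⟩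
    · rw [h4] at hc
      have e1 := prof_compl hG (j := 1) (by omega)
      have e3 := prof_compl hG (j := 2) (by omega)
      have e2 := prof_top hG
      rw [hc] at e1 e2 e3
      have e4 : (4 : ℕ).choose 2 = 6 := rfl
      have e5 : (4 : ℕ) - 2 = 2 := rfl
      rw [e4, e5] at e3
      exact ⟨prof_zero hG, e1, by omega, e2⟩
  funext j
  rcases hr with h3 | h4
  · obtain ⟨a0, a1, a2⟩ := (key F hF).1 h3
    obtain ⟨b0, b1, b2⟩ := (key F' hF').1 h3
    by_cases hj : 3 < j
    · rw [prof_large hF (by omega), prof_large hF' (by omega)]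
    · have : j = 0 ∨ j = 1 ∨ j = 2 ∨ j = 3 := by omega
      rcases this with rfl | rfl | rfl | rfl <;> omega
  · obtain ⟨a0, a1, a2, a3⟩ := (key F hF).2 h4
    obtain ⟨b0, b1, b2, b3⟩ := (key F' hF').2 h4
    by_cases hj : 4 < j
    · rw [prof_large hF (by omega), prof_large hF' (by omega)]
    · have : j = 0 ∨ j = 1 ∨ j = 2 ∨ j = 3 ∨ j = 4 := by omega
      rcases this with rfl | rfl | rfl | rfl | rfl <;> omega

theorem inf_of_large {P Q : ℕ → Prop} (h : {n | P n}.Infinite) {N : ℕ}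
    (hPQ : ∀ n, N ≤ n → P n → Q n) : {n | Q n}.Infinite := by
  refine (h.sdiff (Set.finite_lt_nat N)).mono fun n hn => ?_
  exact hPQ n (not_lt.1 fun h => hn.2 h) hn.1

/-- three or four primes -/
theorem small (hr : (P2 K).ncard = 3 ∨ (P2 K).ncard = 4) :
    {N₀ : ℕ | ∀ A, Extremal K N₀ A ↔ ∃ η ∈ P2 K, A = E K N₀ η}.Infinite ∧
    {N₀ : ℕ | ∀ A, Extremal K N₀ A ↔
      ∃ F, MaxIntersecting K F ∧ (∀ η, {η} ∉ F) ∧ A = Fam K N₀ F}.Infinite := by
  have hne : (P2 K).Nonempty := by
    rw [← Set.ncard_pos P2_finite]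
    omega
  obtain ⟨N₁, hN₁⟩ := extremal_iff (K := K) hne
  obtain ⟨F₀, hF₀, hs₀⟩ := exists_no_single (K := K) (by omega)
  obtain ⟨η₀, hη₀⟩ := hne
  have hD := maxInt_dict hη₀
  have hDs : ∀ {η : Ideal (𝓞 K)}, η ∈ P2 K →
      ({η} : Set (Ideal (𝓞 K))) ∈ {S : Set (Ideal (𝓞 K)) | S ⊆ P2 K ∧ η ∈ S} :=
    fun hη => ⟨Set.singleton_subset_iff.2 hη, rfl⟩
  -- the two profiles
  have hstar : ∀ G, MaxIntersecting K G → (∃ η, {η} ∈ G) → ∀ n,
      (Fam K n G).ncard = (Fam K n {S | S ⊆ P2 K ∧ η₀ ∈ S}).ncard := by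
    rintro G hG ⟨η, hη⟩ n
    refine card_eq_of_prof hG.1 hD.1 (prof_ext hG hD hr ?_) n
    rw [prof_one_of_mem hG hη, prof_one_of_mem hD (hDs hη₀)]
  have hno : ∀ G, MaxIntersecting K G → (∀ η, {η} ∉ G) → ∀ n,
      (Fam K n G).ncard = (Fam K n F₀).ncard := by
    intro G hG hη n
    refine card_eq_of_prof hG.1 hF₀.1 (prof_ext hG hF₀ hr ?_) n
    rw [prof_one_of_not hη, prof_one_of_not hs₀]
  have hprof : prof F₀ ≠ prof {S : Set (Ideal (𝓞 K)) | S ⊆ P2 K ∧ η₀ ∈ S} := by
    intro h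
    have h1 := congrFun h 1
    rw [prof_one_of_not hs₀, prof_one_of_mem hD (hDs hη₀)] at h1
    omega
  refine ⟨inf_of_large (infinite_lt hF₀ hD hprof) (N := N₁) fun n hn hlt A => ?_,
    inf_of_large (infinite_lt hD hF₀ hprof.symm) (N := N₁) fun n hn hlt A => ?_⟩
  · rw [hN₁ n hn A]
    constructor
    · rintro ⟨F, hF, rfl, hmax⟩
      by_cases hs : ∃ η, {η} ∈ F
      · obtain ⟨η, hη⟩ := hs
        have hη2 : η ∈ P2 K := hF.1 _ hη rfl
        refine ⟨η, hη2, ?_⟩
        rw [eq_dict hF hη, fam_dict hη2]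
      · push Not at hs
        have h1 := hno F hF hs n
        have h2 := hmax _ hD
        omega
    · rintro ⟨η, hη, rfl⟩
      have hDη := maxInt_dict hη
      refine ⟨_, hDη, (fam_dict hη n).symm, fun F' hF' => ?_⟩
      rw [hstar _ hDη ⟨η, hDs hη⟩ n]
      by_cases hs : ∃ η, {η} ∈ F'
      · rw [hstar F' hF' hs n]
      · push Not at hs
        rw [hno F' hF' hs n]
        exact hlt.le
  · rw [hN₁ n hn A]
    constructor
    · rintro ⟨F, hF, rfl, hmax⟩
      refine ⟨F, hF, ?_, rfl⟩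
      by_contra hs
      push Not at hs
      have h1 := hstar F hF hs n
      have h2 := hmax _ hF₀
      omega
    · rintro ⟨F, hF, hs, rfl⟩
      refine ⟨F, hF, rfl, fun F' hF' => ?_⟩
      rw [hno F hF hs n]
      by_cases hs' : ∃ η, {η} ∈ F'
      · rw [hstar F' hF' hs' n]
        exact hlt.le
      · push Not at hs'
        rw [hno F' hF' hs' n]

end Pool.Agent.Results.MP_f07b9f_nt.SignChanges

open Pool.Agent.Results.MP_f07b9f_nt.SignChanges in
/-- (1) Let `F`, `F'` be maximal intersecting families of sets of prime ideals of norm 2. If they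
have the same number of members with `j` elements for every `j`, then `Fam K N₀ F` and
`Fam K N₀ F'` have the same cardinality for all `N₀`; otherwise `Fam K N₀ F` is strictly larger for
infinitely many `N₀`, and strictly smaller for infinitely many `N₀`.
(2) If there are at least three primes of norm 2, no `F` gives an extremal set for all large `N₀`.
(3) If there are exactly three, then for infinitely many `N₀` the extremal sets are exactly
`E(N₀, η₁)`, `E(N₀, η₂)`, `E(N₀, η₃)`, and for infinitely many `N₀` the only extremal set is the set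
of the ideals divisible by at least two of `η₁, η₂, η₃`.
(4) If there are exactly four, then for infinitely many `N₀` the extremal sets are exactly the sets
`E(N₀, η)`, and for infinitely many `N₀` they are exactly the sets `Fam K N₀ F`, `F` a maximal
intersecting family without members with one element. -/
theorem Pool.Agent.Results.MP_f07b9f_nt.SignChanges.result (K : Type) [Field K] [NumberField K] :
    (∀ F F' : Set (Set (Ideal (𝓞 K))), MaxIntersecting K F → MaxIntersecting K F' →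
      (profile F = profile F' → ∀ N₀, (Fam K N₀ F).ncard = (Fam K N₀ F').ncard) ∧
      (profile F ≠ profile F' →
        {N₀ : ℕ | (Fam K N₀ F').ncard < (Fam K N₀ F).ncard}.Infinite ∧
        {N₀ : ℕ | (Fam K N₀ F).ncard < (Fam K N₀ F').ncard}.Infinite)) ∧
    (3 ≤ (P2 K).ncard → ∀ F, MaxIntersecting K F →
      {N₀ : ℕ | ¬ Extremal K N₀ (Fam K N₀ F)}.Infinite) ∧
    ((P2 K).ncard = 3 →
      {N₀ : ℕ | ∀ A, Extremal K N₀ A ↔ ∃ η ∈ P2 K, A = E K N₀ η}.Infinite ∧
      {N₀ : ℕ | ∀ A, Extremal K N₀ A ↔ A = TwoOf K N₀}.Infinite) ∧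
    ((P2 K).ncard = 4 →
      {N₀ : ℕ | ∀ A, Extremal K N₀ A ↔ ∃ η ∈ P2 K, A = E K N₀ η}.Infinite ∧
      {N₀ : ℕ | ∀ A, Extremal K N₀ A ↔
        ∃ F, MaxIntersecting K F ∧ (∀ η, {η} ∉ F) ∧ A = Fam K N₀ F}.Infinite) := by
  refine ⟨fun F F' hF hF' => ⟨fun h n => ?_, fun h => ⟨?_, ?_⟩⟩, ?_, ?_, fun h => small (Or.inr h)⟩
  · exact Pool.Agent.W5h38.SC.card_eq_of_prof hF.1 hF'.1 h n
  · exact Pool.Agent.W5h38.SC.infinite_lt hF' hF (Ne.symm h)
  · exact Pool.Agent.W5h38.SC.infinite_lt hF hF' h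
  · intro h3 F hF
    obtain ⟨F₀, hF₀, hs₀⟩ := exists_no_single (K := K) h3
    have hne : (P2 K).Nonempty := by
      rw [← Set.ncard_pos Pool.Agent.W5h38.SC.P2_finite]
      omega
    obtain ⟨η₀, hη₀⟩ := hne
    have hD := maxInt_dict hη₀
    have hD1 : Pool.Agent.W5h38.SC.prof {S : Set (Ideal (𝓞 K)) | S ⊆ P2 K ∧ η₀ ∈ S} 1 = 1 :=
      prof_one_of_mem hD (η := η₀) ⟨Set.singleton_subset_iff.2 hη₀, rfl⟩
    have h0 := prof_one_of_not hs₀
    obtain ⟨F', hF', hne'⟩ : ∃ F', MaxIntersecting K F' ∧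
        Pool.Agent.W5h38.SC.prof F ≠ Pool.Agent.W5h38.SC.prof F' := by
      by_cases h1 : Pool.Agent.W5h38.SC.prof F 1 = 0
      · exact ⟨_, hD, fun h => by rw [h, hD1] at h1; omega⟩
      · exact ⟨F₀, hF₀, fun h => h1 (by rw [h, h0])⟩
    refine (Pool.Agent.W5h38.SC.infinite_lt hF hF' hne').mono fun n hn hext => ?_
    have h5 := hext.2.2 (Fam K n F') (fun _ hx => hx.1) (copFree_Fam n hF')
    have h6 : (Fam K n F).ncard < (Fam K n F').ncard := hn
    omega
  · intro h3
    obtain ⟨h1, h2⟩ := small (K := K) (Or.inl h3)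
    refine ⟨h1, h2.mono fun n hn A => ?_⟩
    rw [hn A]
    obtain ⟨η₁, η₂, η₃, h12, h13, h23, hP⟩ := Set.ncard_eq_three.1 h3
    constructor
    · rintro ⟨F, hF, hs, rfl⟩
      rcases classify h12 h13 h23 hP hF with ⟨η, hη, rfl⟩ | rfl
      · exact absurd ⟨Set.singleton_subset_iff.2 hη, rfl⟩ (hs η)
      · exact fam_maj n
    · rintro rfl
      refine ⟨_, maxInt_maj h12 h13 h23 hP, ?_, (fam_maj n).symm⟩
      rintro η ⟨_, h4⟩
      rw [Set.ncard_singleton] at h4
      omega
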